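import Pool.Agent.Helper98.QR.StmtsC

/-!
# C07: exact generating function of the positive trees
-/

namespace QR

noncomputable section

open Filter Topology PowerSeries

namespace C07

theorem W_smul (c : ℝ) (ω θ : ℤ → ℝ) : ∀ (t : LT) (l : ℤ),
    t.W ω (fun x => c * θ x) l = c ^ t.edges * t.W ω θ l
  | .nil, l => by simp [LT.W, LT.edges]
  | .cons δ ch s, l => by
      simp only [LT.W, LT.edges, W_smul c ω θ ch, W_smul c ω θ s]; ring

theorem coeff_TS_smul (c : ℝ) (θ : ℤ → ℝ) (l : ℤ) (n : ℕ) :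
    coeff n (TS one (fun x => c * θ x) l) = coeff n (TS one θ l) * c ^ n := by
  have h : (∑ᶠ (t : LT) (_ : t.edges = n), t.W one (fun x => c * θ x) l)
      = c ^ n • ∑ᶠ (t : LT) (_ : t.edges = n), t.W one θ l := by
    rw [smul_finsum]
    refine finsum_congr fun t => ?_
    rw [smul_finsum]
    refine finsum_congr fun h => ?_
    rw [W_smul, h, smul_eq_mul]
  simp only [TS, coeff_mk]
  rw [h, smul_eq_mul]; ring

/-- products of nonnegative summable series -/
theorem tot_mul (a b : PowerSeries ℝ) (ha : NS a) (hb : NS b) :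
    HasSum (fun n => coeff n (a * b)) (tot a * tot b) := by
  have ha' : Summable fun n => ‖coeff n a‖ := by
    simpa [Real.norm_eq_abs, abs_of_nonneg (ha.1 _)] using ha.2
  have hb' : Summable fun n => ‖coeff n b‖ := by
    simpa [Real.norm_eq_abs, abs_of_nonneg (hb.1 _)] using hb.2
  have h1 := tsum_mul_tsum_eq_tsum_sum_antidiagonal_of_summable_norm ha' hb'
  have h2 := (summable_norm_sum_mul_antidiagonal_of_summable_norm ha' hb').of_norm
  have h3 := h2.hasSum
  rw [← h1] at h3
  simpa [tot, coeff_mul] using h3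

theorem hasSum_add {a b : PowerSeries ℝ} {x y : ℝ} (ha : HasSum (fun n => coeff n a) x)
    (hb : HasSum (fun n => coeff n b) y) : HasSum (fun n => coeff n (a + b)) (x + y) := by
  simpa using ha.add hb

theorem hasSum_C_mul {a : PowerSeries ℝ} {x : ℝ} (c : ℝ) (ha : HasSum (fun n => coeff n a) x) :
    HasSum (fun n => coeff n (C c * a)) (c * x) := by
  simpa using ha.mul_left c

theorem hasSum_X_mul {a : PowerSeries ℝ} {x : ℝ} (ha : HasSum (fun n => coeff n a) x) :
    HasSum (fun n => coeff n (X * a)) x := by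
  rw [← hasSum_nat_add_iff' 1]
  simpa [coeff_succ_X_mul] using ha

theorem hasSum_one : HasSum (fun n => coeff n (1 : PowerSeries ℝ)) 1 := by
  rw [← hasSum_nat_add_iff' 1]
  simp [coeff_one, hasSum_zero]

end C07

open C07 in
theorem st_C07 (h2 : ST_C02) (h5 : ST_C05) (h6 : ST_C06) : ST_C07 := by
  intro y l hy0 hy1 hl
  obtain ⟨-, hG0, hGb, hGr, -⟩ := h6 y hy0 hy1
  have hg : 0 < 1 - y ^ 2 := by nlinarith
  set g : ℝ := 1 - y ^ 2 with hgdef
  set θ : ℤ → ℝ := fun x => g * pos x with hθ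
  have θpos : ∀ n : ℕ, θ ((n : ℤ) + 1) = g := by
    intro n
    have : (1 : ℤ) ≤ (n : ℤ) + 1 := by omega
    simp [hθ, pos, this]
  have θle : ∀ x : ℤ, x < 1 → θ x = 0 := by
    intro x hx
    have : ¬ (1 : ℤ) ≤ x := by omega
    simp [hθ, pos, this]
  have θ0 : ∀ x : ℤ, 0 ≤ θ x := by
    intro x
    by_cases hx : (1 : ℤ) ≤ x
    · simp [hθ, pos, hx, hg.le]
    · simp [hθ, pos, hx]
  have hG : ∀ n : ℕ, 0 ≤ Gf y n := fun n => (hGb n).1
  have hθU : ∀ n : ℕ, θ (n : ℤ) * Gf y n = g * Gf y n := by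
    intro n
    rcases n with _ | n
    · simp [hG0]
    · have := θpos n
      push_cast
      rw [this]
  have hU : ∀ l : ℤ, 1 ≤ l → NS (TS one θ l) ∧ tot (TS one θ l) ≤ Gf y l.toNat := by
    refine h5 one θ (fun x => Gf y x.toNat) (fun _ => by simp [one]) θ0 θle (fun x => hG _) ?_
    intro l hl
    obtain ⟨n, rfl⟩ : ∃ n : ℕ, l = (n : ℤ) + 1 := ⟨(l - 1).toNat, by omega⟩
    have e0 : ((n : ℤ) + 1 - 1) = (n : ℤ) := by ring
    have e1 : ((n : ℤ) + 1).toNat = n + 1 := by omega
    have e2 : ((n : ℤ) + 1 + 1).toNat = n + 2 := by omega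
    have t1 : θ ((n : ℤ) + 1) = g := θpos n
    have t2 : θ ((n : ℤ) + 1 + 1) = g := by
      have := θpos (n + 1)
      push_cast at this
      exact this
    have t0 : θ (n : ℤ) * Gf y n = g * Gf y n := hθU n
    simp only [e0, e1, e2, t1, t2, Int.toNat_natCast, t0, one]
    have := hGr n
    linarith
  set T : ℕ → ℝ := fun n => if n = 0 then 0 else tot (TS one θ (n : ℤ)) with hT
  have T0 : T 0 = 0 := by simp [hT]
  have Ts : ∀ n : ℕ, T (n + 1) = tot (TS one θ ((n : ℤ) + 1)) := by
    intro n; simp [hT]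
  have NSs : ∀ n : ℕ, NS (TS one θ ((n : ℤ) + 1)) := fun n => (hU _ (by omega)).1
  have Tle : ∀ n : ℕ, T (n + 1) ≤ Gf y (n + 1) := by
    intro n
    rw [Ts]
    have := (hU ((n : ℤ) + 1) (by omega)).2
    have e1 : ((n : ℤ) + 1).toNat = n + 1 := by omega
    rwa [e1] at this
  have HS : ∀ n : ℕ, HasSum (fun m => coeff m (TS one θ ((n : ℤ) + 1))) (T (n + 1)) := by
    intro n
    rw [Ts]
    exact (NSs n).2.hasSum
  have Tnn : ∀ n : ℕ, 0 ≤ T n := by
    intro n
    rcases n with _ | n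
    · exact T0.ge
    · rw [Ts]; exact tsum_nonneg (NSs n).1
  have HC : ∀ n : ℕ, HasSum (fun m => coeff m (C (θ (n : ℤ)) * TS one θ (n : ℤ))) (g * T n) ∧
      ∀ m, 0 ≤ coeff m (C (θ (n : ℤ)) * TS one θ (n : ℤ)) := by
    intro n
    rcases n with _ | n
    · have : θ ((0 : ℕ) : ℤ) = 0 := θle _ (by simp)
      rw [this, T0]
      simp [hasSum_zero]
    · have := θpos n
      push_cast
      rw [this]
      refine ⟨hasSum_C_mul g (HS n), fun m => ?_⟩
      rw [coeff_C_mul]
      exact mul_nonneg hg.le ((NSs n).1 m)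
  have hrec : ∀ n : ℕ, T (n + 1) = 1 + g / 12 * (T n + T (n + 1) + T (n + 2)) * T (n + 1) := by
    intro n
    have e := h2 one θ ((n : ℤ) + 1)
    have e0 : ((n : ℤ) + 1 - 1) = (n : ℤ) := by ring
    rw [e0] at e
    set S : PowerSeries ℝ := C (θ (n : ℤ)) * TS one θ (n : ℤ) +
      C (θ ((n : ℤ) + 1)) * TS one θ ((n : ℤ) + 1) +
      C (θ ((n : ℤ) + 1 + 1)) * TS one θ ((n : ℤ) + 1 + 1) with hS
    have c0 := HC n
    have c1 := HC (n + 1)
    have c2 := HC (n + 2)
    push_cast at c1 c2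
    have e2 : (n : ℤ) + 2 = (n : ℤ) + 1 + 1 := by ring
    rw [e2] at c2
    have HSS : HasSum (fun m => coeff m S) (g * T n + g * T (n + 1) + g * T (n + 2)) :=
      hasSum_add (hasSum_add c0.1 c1.1) c2.1
    have NSS : NS S := by
      refine ⟨fun m => ?_, HSS.summable⟩
      rw [hS, map_add, map_add]
      exact add_nonneg (add_nonneg (c0.2 m) (c1.2 m)) (c2.2 m)
    have totS : tot S = g * T n + g * T (n + 1) + g * T (n + 2) := HSS.tsum_eq
    have HP := tot_mul S (TS one θ ((n : ℤ) + 1)) NSS (NSs n)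
    rw [totS, ← Ts n] at HP
    have HR := hasSum_add hasSum_one (hasSum_C_mul (1 / 12) (hasSum_X_mul HP))
    have e' : TS one θ ((n : ℤ) + 1) = 1 + C (1 / 12) * (X * (S * TS one θ ((n : ℤ) + 1))) := by
      conv_lhs => rw [e]
      simp only [one, map_one, one_mul, mul_assoc]
    rw [← e'] at HR
    have := (HS n).unique HR
    linear_combination this
  have T1 : ∀ n : ℕ, 1 ≤ T (n + 1) := by
    intro n
    rw [hrec n]
    have := mul_nonneg (mul_nonneg (div_nonneg hg.le (by norm_num : (0:ℝ) ≤ 12))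
      (add_nonneg (add_nonneg (Tnn n) (Tnn (n + 1))) (Tnn (n + 2)))) (Tnn (n + 1))
    linarith
  set D : ℕ → ℝ := fun n => Gf y n - T n with hD
  have D0 : D 0 = 0 := by simp [hD, hG0, T0]
  have Dnn : ∀ n, 0 ≤ D n := by
    intro n
    rcases n with _ | n
    · exact D0.ge
    · have := Tle n
      simp only [hD]; linarith
  have Dle : ∀ n, D n ≤ 2 := by
    intro n
    have h1 := (hGb n).2
    have h2 := Tnn n
    have h3 : 2 / (1 + y) ≤ 2 := by
      rw [div_le_iff₀ (by linarith)]; nlinarith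
    simp only [hD]; linarith
  have Drec : ∀ n, D (n + 1) = g / 12 * Gf y (n + 1) * T (n + 1) * (D n + D (n + 1) + D (n + 2)) := by
    intro n
    have a := hGr n
    have b := hrec n
    simp only [hD]
    linear_combination T (n + 1) * a - Gf y (n + 1) * b
  have bd : ∀ n, g / 12 * Gf y (n + 1) * T (n + 1) ≤ 1 / 3 := by
    intro n
    have h1 := (hGb (n + 1)).2
    have h2 : T (n + 1) ≤ 2 / (1 + y) := (Tle n).trans h1
    have h3 : Gf y (n + 1) * T (n + 1) ≤ 2 / (1 + y) * (2 / (1 + y)) :=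
      mul_le_mul h1 h2 (Tnn _) (by positivity)
    have h4 : g / 12 * (2 / (1 + y) * (2 / (1 + y))) ≤ 1 / 3 := by
      have : g / 12 * (2 / (1 + y) * (2 / (1 + y))) = (1 - y) / (3 * (1 + y)) := by
        rw [hgdef]; field_simp; ring
      rw [this, div_le_iff₀ (by linarith)]; nlinarith
    calc g / 12 * Gf y (n + 1) * T (n + 1) = g / 12 * (Gf y (n + 1) * T (n + 1)) := by ring
      _ ≤ g / 12 * (2 / (1 + y) * (2 / (1 + y))) := by
        exact mul_le_mul_of_nonneg_left h3 (by linarith)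
      _ ≤ 1 / 3 := h4
  have conv : ∀ n, D (n + 1) - D n ≤ D (n + 2) - D (n + 1) := by
    intro n
    have h1 := Drec n
    have h2 : g / 12 * Gf y (n + 1) * T (n + 1) * (D n + D (n + 1) + D (n + 2)) ≤
        1 / 3 * (D n + D (n + 1) + D (n + 2)) :=
      mul_le_mul_of_nonneg_right (bd n) (add_nonneg (add_nonneg (Dnn n) (Dnn _)) (Dnn _))
    linarith
  have inc : ∀ n, D 1 ≤ D (n + 1) - D n := by
    intro n
    induction n with
    | zero => simp [D0]
    | succ n ih => exact ih.trans (conv n)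
  have lin : ∀ n : ℕ, (n : ℝ) * D 1 ≤ D n := by
    intro n
    induction n with
    | zero => simp [D0]
    | succ n ih =>
      have := inc n
      push_cast
      linarith
  have D1 : D 1 = 0 := by
    refine le_antisymm ?_ (Dnn 1)
    by_contra hpos
    push Not at hpos
    obtain ⟨n, hn⟩ := exists_nat_gt (2 / D 1)
    rw [div_lt_iff₀ hpos] at hn
    have := lin n
    have := Dle n
    linarith
  have Dz : ∀ n, D n = 0 ∧ D (n + 1) = 0 := by
    intro n
    induction n with
    | zero => exact ⟨D0, D1⟩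
    | succ n ih =>
      refine ⟨ih.2, ?_⟩
      have h1 := Drec n
      rw [ih.1, ih.2] at h1
      have hGp : 0 < Gf y (n + 1) := lt_of_lt_of_le (by norm_num) ((T1 n).trans (Tle n))
      have hTp : 0 < T (n + 1) := lt_of_lt_of_le (by norm_num) (T1 n)
      have hp : 0 < g / 12 * Gf y (n + 1) * T (n + 1) := by positivity
      have : g / 12 * Gf y (n + 1) * T (n + 1) * D (n + 2) = 0 := by linarith
      rcases mul_eq_zero.mp this with h | h
      · exact absurd h hp.ne'
      · exact h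
  obtain ⟨n, rfl⟩ : ∃ n, l = n + 1 := ⟨l - 1, by omega⟩
  have hfin : T (n + 1) = Gf y (n + 1) := by
    have := (Dz n).2
    simp only [hD] at this
    linarith
  have := HS n
  rw [hfin] at this
  have e : (fun m => coeff m (TS one θ ((n : ℤ) + 1))) =
      fun m => coeff m (TS one pos ((n : ℤ) + 1)) * g ^ m := by
    funext m
    exact coeff_TS_smul g pos _ m
  rw [e] at this
  push_cast
  exact this

end

end QR
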